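import Pool.Agent.Work.MP_3a9764_gt.Final
import Pool.Agent.Work.MP_3a9764_gt.Bridge

set_option autoImplicit false

open scoped Manifold ContDiff
open Pool.Agent.Work.MP_3a9764_gt

namespace Pool.Agent.Results.MP_3a9764_gt.CurvOp

theorem result : ∀ (n : ℕ), 4 ≤ n → n ≤ 8 →
    ∀ (M : Type) [TopologicalSpace M] [T2Space M] [CompactSpace M] [ChartedSpace (Eu n) M]
      [IsManifold 𝓘(ℝ, Eu n) ∞ M] (T : ℝ) (g : ℝ → Stmt.Forms (Eu n) M),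
      Stmt.IsRicciFlow (Set.Ico 0 T) g → Stmt.HasPIC (g 0) →
      ∀ (N : Type) [TopologicalSpace N] [T2Space N] [ChartedSpace (Eu n) N]
        [IsManifold 𝓘(ℝ, Eu n) ∞ N] (J : Set ℝ) (h : ℝ → Stmt.Forms (Eu n) N) (p : N),
        Stmt.IsBlowupLimit T g J h p → ∀ s ∈ J, Stmt.NonnegCurvOp (h s) :=
  fun _ hn hn8 _ _ _ _ _ _ _ _ hg h0 _ _ _ _ _ _ _ _ hl s hs =>
    Stmt.nonnegCurvOp_of (main_op hn hn8 hg.out h0.out hl.out s hs)

end Pool.Agent.Results.MP_3a9764_gt.CurvOp
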